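import Pool.Agent.R942.HX.Torus
import Pool.Agent.R728.RC.Hall

/-!
# Hall's inequality for all pairs which have digit strings in common with typical numbers

Let `0 ≤ δ < 1 / 2` (`δ = 0` is Hall's original conjecture). We say that `N` and `α` have a common string of
precision `ρ` in base `b` if `|N / b ^ i - b ^ m α - j| ≤ ρ` for some integer `j`, some `i` with `b ^ i ≤ b Y` and
some `m ≤ Z`: about `- log ρ / log b` consecutive digits of `N`, at any place, are consecutive digits of `α`,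
at any place up to the `Z`-th digit.

(1) For almost every real number `α`, all `b ≥ 2`, `δ`, `u ≥ 0` and `v > u + 1 / 3 - δ / 6` there is `c > 0` with
`|y ^ 2 - x ^ 3| > c |x| ^ (1 / 2 - δ)` for ALL integers `x`, `y` with `y ^ 2 ≠ x ^ 3` such that `|x|` or `|y|` has a
common string with `α` of precision `|x| ^ (-v)`, at any place up to the `|x| ^ u`-th digit of `α`.

(2) Let `r ≥ 1` and let `N_1, …, N_r` be any real functions of `(x, y)`, `w ≥ 0`. For almost all real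
`(α_1, …, α_r)`, all `b ≥ 2`, `δ`, `u ≥ 0` and `v > u + (1 / 3 - δ / 6) / r` there is `c > 0` such that the
inequality holds for ALL integers `x`, `y` with `y ^ 2 ≠ x ^ 3` such that each `N_k (x, y)` has a common string
with `α_k` of precision `|x| ^ (-v)`, `b ^ i ≤ b |x| ^ w`, at any place up to the `|x| ^ u`-th digit of `α_k`.

(3) Let `A e i`, `i` in a countable set of indices, be subsets of a set with an outer measure `μ`, attached to the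
pairs `e = (x, y)`, with `∑ i, μ (A e i) ≤ K |x| ^ (-τ)`. If `τ > 1 / 3 - δ / 6`, for `μ`-almost every `z` and all
`C` there are only finitely many `e`, `i` with `z ∈ A e i` and `|y ^ 2 - x ^ 3| ≤ C |x| ^ (1 / 2 - δ)`.
-/

set_option autoImplicit false

namespace Pool.Agent.Results.MP_e734ed_nt.CommonDigitStrings

open Pool.Agent.R942.HX MeasureTheory
open Pool.Agent.R728.RC.Hall (Violates one_le_of_violates one_le_abs_sub)

theorem sparse_viol (C : ℝ) {δ : ℝ} (h0 : 0 ≤ δ) (h1 : δ < 1 / 2) :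
    Sparse (fun e : ℤ × ℤ => |(e.1 : ℝ)|) {e | Violates C δ e} (1 / 3 - δ / 6) := by
  refine ⟨fun e he => one_le_of_violates h1 he, fun ε hε => ?_⟩
  obtain ⟨K, hK⟩ := SparseExceptions.result C ε hε
  refine ⟨K, fun X hX => ?_⟩
  obtain ⟨h2, h3⟩ := hK δ h0 h1.le X hX
  have hset : {e : ℤ × ℤ | e ∈ {e | Violates C δ e} ∧ |(e.1 : ℝ)| ≤ X} =
      {e : ℤ × ℤ | |(e.1 : ℝ)| ≤ X ∧ e.2 ^ 2 ≠ e.1 ^ 3 ∧
        |(e.2 : ℝ) ^ 2 - (e.1 : ℝ) ^ 3| ≤ C * |(e.1 : ℝ)| ^ (1 / 2 - δ)} := by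
    ext e
    simp only [Set.mem_ofPred_eq, Violates]
    tauto
  rw [hset]
  exact ⟨h2, h3⟩

/-- if only finitely many pairs in `A` violate the inequality with the constant `1`, all pairs in `A`
satisfy it with some positive constant -/
theorem exists_c {δ : ℝ} {A : Set (ℤ × ℤ)} (h : {e | Violates 1 δ e ∧ e ∈ A}.Finite) :
    ∃ c : ℝ, 0 < c ∧ ∀ x y : ℤ, y ^ 2 ≠ x ^ 3 → (x, y) ∈ A →
      c * |(x : ℝ)| ^ (1 / 2 - δ) < |(y : ℝ) ^ 2 - (x : ℝ) ^ 3| := by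
  obtain ⟨B, hB⟩ := (h.image fun e => |(e.1 : ℝ)| ^ (1 / 2 - δ)).bddAbove
  refine ⟨1 / (|B| + 2), by positivity, fun x y hxy hA => ?_⟩
  have h3 : 0 < |B| + 2 := by positivity
  by_cases hv : Violates 1 δ (x, y)
  · have h1 := hB ⟨(x, y), ⟨hv, hA⟩, rfl⟩
    simp only at h1
    have h2 := one_le_abs_sub (e := (x, y)) hxy
    simp only at h2
    refine lt_of_lt_of_le ?_ h2
    rw [div_mul_eq_mul_div, div_lt_one h3, one_mul]
    linarith [le_abs_self B]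
  · unfold Violates at hv
    simp only [not_and, not_le, one_mul] at hv
    refine lt_of_le_of_lt ?_ (hv hxy)
    have h4 : 0 ≤ |(x : ℝ)| ^ (1 / 2 - δ) := by positivity
    have h5 : 1 / (|B| + 2) ≤ 1 := by
      rw [div_le_one h3]
      linarith [abs_nonneg B]
    exact mul_le_of_le_one_left h4 h5

/-- the second coordinate of a violation is at most the square of the first -/
lemma y_le {δ : ℝ} (h0 : 0 ≤ δ) (h1 : δ < 1 / 2) {e : ℤ × ℤ} (h : Violates 1 δ e) :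
    |(e.2 : ℝ)| ≤ |(e.1 : ℝ)| ^ (2 : ℝ) := by
  have hx := one_le_of_violates h1 h
  obtain ⟨-, h2⟩ := h
  rw [one_mul] at h2
  have h3 : |(e.1 : ℝ)| ^ (1 / 2 - δ) ≤ |(e.1 : ℝ)| := by
    calc |(e.1 : ℝ)| ^ (1 / 2 - δ) ≤ |(e.1 : ℝ)| ^ (1 : ℝ) :=
          Real.rpow_le_rpow_of_exponent_le hx (by linarith)
      _ = |(e.1 : ℝ)| := Real.rpow_one _
  have h4 : (e.2 : ℝ) ^ 2 ≤ |(e.1 : ℝ)| ^ 3 + |(e.1 : ℝ)| := by
    have h5 := (abs_le.1 (h2.trans h3)).2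
    have h6 : (e.1 : ℝ) ^ 3 ≤ |(e.1 : ℝ)| ^ 3 := by
      rw [← abs_pow]
      exact le_abs_self _
    linarith
  rw [show (2 : ℝ) = ((2 : ℕ) : ℝ) by norm_num, Real.rpow_natCast]
  have hz : (1 : ℤ) ≤ |e.1| := by exact_mod_cast hx
  have h7 : e.2 ^ 2 ≤ |e.1| ^ 3 + |e.1| := by exact_mod_cast h4
  have h8 : |e.2| ≤ |e.1| ^ 2 := by
    by_contra hcon
    push Not at hcon
    have h9 : (|e.1| ^ 2 + 1) ^ 2 ≤ e.2 ^ 2 := by
      rw [← sq_abs e.2]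
      exact pow_le_pow_left₀ (by positivity) (by omega) 2
    have h10 := h9.trans h7
    generalize |e.1| = a at hz h10
    nlinarith [mul_nonneg (sub_nonneg.2 hz) (pow_nonneg (show (0 : ℤ) ≤ a by omega) 3),
      mul_nonneg (sub_nonneg.2 hz) (show (0 : ℤ) ≤ a by omega)]
  exact_mod_cast h8

/-- rational parameters close to given ones -/
lemma approx {r : ℕ} (hr : 1 ≤ r) {δ u v : ℝ} (h0 : 0 ≤ δ)
    (hv : u + (1 / 3 - δ / 6) / r < v) : ∃ a : ℚ, (0 : ℝ) ≤ a ∧ (a : ℝ) ≤ δ ∧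
      u + (1 / 3 - (a : ℝ) / 6) / r < v := by
  have hr0 : (0 : ℝ) < r := by exact_mod_cast (by omega : 0 < r)
  rcases h0.eq_or_lt with h | h
  · refine ⟨0, by simp, by simp [← h], ?_⟩
    rw [← h] at hv
    simpa using hv
  · have h3 : (1 / 3 - δ / 6) / r < v - u := by linarith
    rw [div_lt_iff₀ hr0] at h3
    have h2 : max 0 (6 * (1 / 3 - (v - u) * r)) < δ := max_lt h (by linarith)
    obtain ⟨a, ha1, ha2⟩ := exists_rat_btwn h2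
    refine ⟨a, (le_max_left _ _).trans ha1.le, ha2.le, ?_⟩
    have h4 := (le_max_right 0 (6 * (1 / 3 - (v - u) * (r : ℝ)))).trans_lt ha1
    have h5 : (1 / 3 - (a : ℝ) / 6) / r < v - u := by
      rw [div_lt_iff₀ hr0]
      linarith
    linarith

theorem several {r : ℕ} (hr : 1 ≤ r) (N : Fin r → ℤ × ℤ → ℝ) {w : ℝ} (hw : 0 ≤ w) :
    ∀ᵐ α : Fin r → ℝ, ∀ b : ℕ, 2 ≤ b → ∀ δ u v : ℝ, 0 ≤ δ → δ < 1 / 2 → 0 ≤ u →
      u + (1 / 3 - δ / 6) / r < v → {e | Violates 1 δ e ∧ ∀ k, CommonString b (α k)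
        (|(e.1 : ℝ)| ^ w) (|(e.1 : ℝ)| ^ u) (|(e.1 : ℝ)| ^ (-v)) (N k e)}.Finite := by
  have key : ∀ᵐ α : Fin r → ℝ, ∀ a : ℚ, (0 : ℝ) ≤ a → (a : ℝ) < 1 / 2 → ∀ b : ℕ, 2 ≤ b →
      ∀ u v : ℝ, 0 ≤ u → u + (1 / 3 - (a : ℝ) / 6) / r < v →
      {e | e ∈ {e | Violates 1 a e} ∧ ∀ k, CommonString b (α k)
        (|(e.1 : ℝ)| ^ w) (|(e.1 : ℝ)| ^ u) (|(e.1 : ℝ)| ^ (-v)) (N k e)}.Finite := by
    rw [ae_all_iff]
    intro a
    by_cases ha : (0 : ℝ) ≤ a ∧ (a : ℝ) < 1 / 2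
    · filter_upwards [(sparse_viol 1 ha.1 ha.2).several (by linarith [ha.2]) hr N hw] with α hα _ _
      exact hα
    · filter_upwards with α h1 h2
      exact absurd ⟨h1, h2⟩ ha
  filter_upwards [key] with α hα b hb δ u v h0 h1 hu hv
  obtain ⟨a, ha0, ha1, ha2⟩ := approx hr h0 hv
  refine (hα a ha0 (by linarith) b hb u v hu ha2).subset ?_
  rintro e ⟨h2, h3⟩
  exact ⟨h2.mono h1 le_rfl zero_le_one ha1, h3⟩

/-- **Theorem.** See the beginning of the file. -/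
theorem result :
    (∀ᵐ α : ℝ, ∀ b : ℕ, 2 ≤ b → ∀ δ u v : ℝ, 0 ≤ δ → δ < 1 / 2 → 0 ≤ u →
      u + (1 / 3 - δ / 6) < v → ∃ c : ℝ, 0 < c ∧ ∀ x y : ℤ, y ^ 2 ≠ x ^ 3 →
        (CommonString b α |(x : ℝ)| (|(x : ℝ)| ^ u) (|(x : ℝ)| ^ (-v)) |(x : ℝ)| ∨
          CommonString b α |(y : ℝ)| (|(x : ℝ)| ^ u) (|(x : ℝ)| ^ (-v)) |(y : ℝ)|) →
        c * |(x : ℝ)| ^ (1 / 2 - δ) < |(y : ℝ) ^ 2 - (x : ℝ) ^ 3|) ∧
    (∀ (r : ℕ) (N : Fin r → ℤ × ℤ → ℝ) (w : ℝ), 1 ≤ r → 0 ≤ w →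
      ∀ᵐ α : Fin r → ℝ, ∀ b : ℕ, 2 ≤ b → ∀ δ u v : ℝ, 0 ≤ δ → δ < 1 / 2 → 0 ≤ u →
        u + (1 / 3 - δ / 6) / r < v → ∃ c : ℝ, 0 < c ∧ ∀ x y : ℤ, y ^ 2 ≠ x ^ 3 →
          (∀ k, CommonString b (α k) (|(x : ℝ)| ^ w) (|(x : ℝ)| ^ u) (|(x : ℝ)| ^ (-v))
            (N k (x, y))) →
          c * |(x : ℝ)| ^ (1 / 2 - δ) < |(y : ℝ) ^ 2 - (x : ℝ) ^ 3|) ∧
    (∀ (Z : Type) (μ : OuterMeasure Z) (A : ℤ × ℤ → ℕ → Set Z) (δ τ K : ℝ), 0 ≤ δ → δ < 1 / 2 →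
      1 / 3 - δ / 6 < τ →
      (∀ x y : ℤ, y ^ 2 ≠ x ^ 3 → ∑' i, μ (A (x, y) i) ≤ ENNReal.ofReal (K * |(x : ℝ)| ^ (-τ))) →
      ∀ C : ℝ, μ {z : Z | {p : (ℤ × ℤ) × ℕ | (p.1.2 ^ 2 ≠ p.1.1 ^ 3 ∧
        |(p.1.2 : ℝ) ^ 2 - (p.1.1 : ℝ) ^ 3| ≤ C * |(p.1.1 : ℝ)| ^ (1 / 2 - δ)) ∧
          z ∈ A p.1 p.2}.Infinite} = 0) := by
  refine ⟨?_, fun r N w hr hw => ?_, fun Z μ A δ τ K h0 h1 hτ h C => ?_⟩
  · have hx := several (r := 1) le_rfl (fun _ e => |(e.1 : ℝ)|) zero_le_one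
    have hy := several (r := 1) le_rfl (fun _ e => |(e.2 : ℝ)|) (w := 2) zero_le_two
    have hmp := (volume_preserving_funUnique (Fin 1) ℝ).symm
    have hx' := hmp.quasiMeasurePreserving.ae hx
    have hy' := hmp.quasiMeasurePreserving.ae hy
    filter_upwards [hx', hy'] with α hαx hαy b hb δ u v h0 h1 hu hv
    have hv' : u + (1 / 3 - δ / 6) / (1 : ℕ) < v := by simpa using hv
    have h2 := hαx b hb δ u v h0 h1 hu hv'
    have h3 := hαy b hb δ u v h0 h1 hu hv'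
    have h4 := exists_c (δ := δ) (A := {e | CommonString b α |(e.1 : ℝ)| (|(e.1 : ℝ)| ^ u)
      (|(e.1 : ℝ)| ^ (-v)) |(e.1 : ℝ)| ∨ CommonString b α |(e.2 : ℝ)| (|(e.1 : ℝ)| ^ u)
      (|(e.1 : ℝ)| ^ (-v)) |(e.2 : ℝ)|}) ?_
    · obtain ⟨c, hc0, hc⟩ := h4
      exact ⟨c, hc0, fun x y hxy h => hc x y hxy h⟩
    · refine (h2.union h3).subset ?_
      rintro e ⟨he, hs⟩
      rcases hs with hs | ⟨i, m, j, hi, hm, hj⟩
      · left
        refine ⟨he, fun k => ?_⟩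
        rw [Real.rpow_one]
        exact hs
      · right
        refine ⟨he, fun k => ⟨i, m, j, hi.trans ?_, hm, hj⟩⟩
        exact mul_le_mul_of_nonneg_left (y_le h0 h1 he) (Nat.cast_nonneg b)
  · filter_upwards [several hr N hw] with α hα b hb δ u v h0 h1 hu hv
    obtain ⟨c, hc0, hc⟩ := exists_c (δ := δ) (A := {e | ∀ k, CommonString b (α k)
      (|(e.1 : ℝ)| ^ w) (|(e.1 : ℝ)| ^ u) (|(e.1 : ℝ)| ^ (-v)) (N k e)}) (hα b hb δ u v h0 h1 hu hv)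
    exact ⟨c, hc0, fun x y hxy h => hc x y hxy h⟩
  · exact (sparse_viol C h0 h1).null (by linarith) μ A hτ fun e he => h e.1 e.2 he.1

end Pool.Agent.Results.MP_e734ed_nt.CommonDigitStrings
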