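import Pool.Agent.R728.RC.Hall

/-!
# The weak form of Hall's conjecture and congruences to random residues

Let `𝓜` be a set of moduli with `∑ m ^ (-s) < ∞` (the squareful numbers for `s > 1 / 2`, which
contain the powers `p ^ k`, `k ≥ 2`, of all primes; the powers of one number for `s > 0`), and let
`X m` be random residues modulo `m`, each value of which has probability at most `A m ^ (-θ)`,
`θ > s`. No independence is assumed: for instance the residues of a random profinite integer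
(`θ = 1`), of a random point of a Cantor set of `p`-adic integers of dimension `θ`, or of `[m α]`.
Let `φ m` be any maps from the pairs of integers to the residues modulo `m`. Almost surely, for all
`0 ≤ δ < 1 / 2` and all `τ > (1 / 3 - δ / 6) / (θ - s)` there is `c > 0` such that
`|y ^ 2 - x ^ 3| > c |x| ^ (1 / 2 - δ)` for ALL pairs `(x, y)` with `y ^ 2 ≠ x ^ 3` and
`φ m (x, y) = X m` for some `m ≥ |x| ^ τ` in `𝓜`, for example `x ≡ X m` modulo `m`.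
-/

set_option autoImplicit false

namespace Pool.Agent.Results.MP_e734ed_nt.RandomResidues

open MeasureTheory

/-- every prime dividing `m` divides it at least twice -/
def Squareful (m : ℕ) : Prop := 0 < m ∧ ∀ p : ℕ, p.Prime → p ∣ m → p ^ 2 ∣ m

/-- **Theorem.** Let `𝓜` be a set of positive integers with a convergent sum of the `m ^ (-s)`, and
`X m` random residues modulo `m`, each value of which has probability at most `A m ^ (-θ)`, where
`s < θ` (no independence is assumed), and `φ m` any maps from the pairs of integers to the residues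
modulo `m`. Almost surely, for all `0 ≤ δ < 1 / 2` and `τ` with `1 / 3 - δ / 6 < (θ - s) τ`:

(1) there is `c > 0` such that `|y ^ 2 - x ^ 3| > c |x| ^ (1 / 2 - δ)` for all `m` in `𝓜` and all
integers `x`, `y` with `y ^ 2 ≠ x ^ 3`, `|x| ^ τ ≤ m` and `φ m (x, y) = X m`;

(2) for every `C` only finitely many triples `(m, x, y)` with `m` in `𝓜`, `y ^ 2 ≠ x ^ 3`,
`|x| ^ τ ≤ m` and `φ m (x, y) = X m` satisfy `|y ^ 2 - x ^ 3| ≤ C |x| ^ (1 / 2 - δ)`.

(3) The sum of the `m ^ (-s)` over the squareful numbers converges for `s > 1 / 2`, and that over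
the powers of an integer `b ≥ 2` for `s > 0`. -/
theorem result :
    (∀ (𝓜 : Set ℕ) (s θ A : ℝ) (Ω : Type) [MeasurableSpace Ω] (P : Measure Ω)
      (X : ∀ m : ℕ, Ω → ZMod m) (φ : ∀ m : ℕ, ℤ × ℤ → ZMod m),
      (∀ m ∈ 𝓜, 0 < m) → s < θ → (Summable fun m : 𝓜 => ((m : ℕ) : ℝ) ^ (-s)) →
      (∀ m ∈ 𝓜, ∀ r : ZMod m, P {ω | X m ω = r} ≤ ENNReal.ofReal (A * (m : ℝ) ^ (-θ))) →
      ∀ᵐ ω ∂P, ∀ δ τ : ℝ, 0 ≤ δ → δ < 1 / 2 → 1 / 3 - δ / 6 < (θ - s) * τ →
        (∃ c : ℝ, 0 < c ∧ ∀ m ∈ 𝓜, ∀ x y : ℤ, y ^ 2 ≠ x ^ 3 → |(x : ℝ)| ^ τ ≤ m →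
          φ m (x, y) = X m ω → c * |(x : ℝ)| ^ (1 / 2 - δ) < |(y : ℝ) ^ 2 - (x : ℝ) ^ 3|) ∧
        ∀ C : ℝ, {t : ℕ × (ℤ × ℤ) | t.1 ∈ 𝓜 ∧ |(t.2.1 : ℝ)| ^ τ ≤ t.1 ∧
          φ t.1 t.2 = X t.1 ω ∧ t.2.2 ^ 2 ≠ t.2.1 ^ 3 ∧
          |(t.2.2 : ℝ) ^ 2 - (t.2.1 : ℝ) ^ 3| ≤ C * |(t.2.1 : ℝ)| ^ (1 / 2 - δ)}.Finite) ∧
    (∀ s : ℝ, 1 / 2 < s → Summable fun m : {m : ℕ | Squareful m} => ((m : ℕ) : ℝ) ^ (-s)) ∧
    ∀ b : ℕ, 2 ≤ b → ∀ s : ℝ, 0 < s →
      Summable fun m : {m : ℕ | ∃ k : ℕ, m = b ^ k} => ((m : ℕ) : ℝ) ^ (-s) := by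
  refine ⟨fun 𝓜 s θ A Ω _ P X φ h0 hs hsum hX => ?_, fun s hs => ?_, fun b hb s hs => ?_⟩
  · filter_upwards [Pool.Agent.R728.RC.Hall.const_all (φ := φ) h0 hs hsum hX,
      Pool.Agent.R728.RC.Hall.fin_all (φ := φ) h0 hs hsum hX] with ω h1 h2 δ τ h3 h4 h5
    exact ⟨h1 δ τ h3 h4 h5, fun C => h2 C δ τ h3 h4 h5⟩
  · exact Pool.Agent.R728.RC.summable_squareful hs
  · exact Pool.Agent.R728.RC.summable_powers hb hs

end Pool.Agent.Results.MP_e734ed_nt.RandomResidues
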