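import Pool.Agent.R909.RSHall

/-!
# The weak form of Hall's conjecture in random sets of integers

Let `A`, `A'` be random sets of integers such that `x ∈ A` and `y ∈ A'` with probability at most
`C₀ |x| ^ (-γ) |y| ^ (-γ')`, for instance because the elements of `A` and `A'` are chosen
independently with the probabilities `|x| ^ (-γ)` and `|y| ^ (-γ')`. Almost surely, for all
`0 ≤ δ < 1 / 2` with `1 / 3 - δ / 6 < γ + 3 γ' / 2` there is `c > 0` such that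
`|y ^ 2 - x ^ 3| > c |x| ^ (1 / 2 - δ)` for ALL `x ∈ A`, `y ∈ A'` with `y ^ 2 ≠ x ^ 3`.
-/

set_option autoImplicit false

namespace Pool.Agent.Results.MP_e734ed_nt.RandomSets

open MeasureTheory

/-- the integers `x`, `y` belong to the random sets `A`, `A'` with probability at most
`C * |x| ^ (-γ) * |y| ^ (-γ')` -/
def Sparse {Ω : Type} [MeasurableSpace Ω] (P : Measure Ω) (A A' : Ω → Set ℤ) (γ γ' C : ℝ) : Prop :=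
  ∀ x y : ℤ, x ≠ 0 → y ≠ 0 →
    P {ω | x ∈ A ω ∧ y ∈ A' ω} ≤ ENNReal.ofReal (C * |(x : ℝ)| ^ (-γ) * |(y : ℝ)| ^ (-γ'))

/-- **Theorem.** Let `A`, `A'` be random sets of integers such that `x ∈ A` and `y ∈ A'` with
probability at most `C₀ |x| ^ (-γ) |y| ^ (-γ')`, for all `x, y ≠ 0`, where `γ' ≥ 0`. Almost surely, for
all `0 ≤ δ < 1 / 2` with `1 / 3 - δ / 6 < γ + 3 γ' / 2`:

(1) there is `c > 0` such that `|y ^ 2 - x ^ 3| > c |x| ^ (1 / 2 - δ)` for all `x ∈ A`, `y ∈ A'` with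
`y ^ 2 ≠ x ^ 3`;

(2) for every `C` only finitely many `x ∈ A`, `y ∈ A'` with `y ^ 2 ≠ x ^ 3` satisfy
`|y ^ 2 - x ^ 3| ≤ C |x| ^ (1 / 2 - δ)`.

(3) If `0 ≤ δ < 1 / 2`, `η ≥ 0` and `1 / 3 - δ / 6 + η < γ + 3 γ' / 2`, then for every `C` there is
`B` such that the probability that some `x ∈ A` and `y ∈ A'` with `y ≠ 0`, `|x| ≥ X`, `y ^ 2 ≠ x ^ 3`
satisfy `|y ^ 2 - x ^ 3| ≤ C |x| ^ (1 / 2 - δ)` is at most `B X ^ (-η)`, for all `X ≥ 1`. -/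
theorem result (Ω : Type) [MeasurableSpace Ω] (P : Measure Ω) (A A' : Ω → Set ℤ) (γ γ' C₀ : ℝ)
    (hA : Sparse P A A' γ γ' C₀) (hγ' : 0 ≤ γ') :
    (∀ᵐ ω ∂P, ∀ δ : ℝ, 0 ≤ δ → δ < 1 / 2 → 1 / 3 - δ / 6 < γ + 3 / 2 * γ' →
      (∃ c : ℝ, 0 < c ∧ ∀ x ∈ A ω, ∀ y ∈ A' ω, y ^ 2 ≠ x ^ 3 →
        c * |(x : ℝ)| ^ (1 / 2 - δ) < |(y : ℝ) ^ 2 - (x : ℝ) ^ 3|) ∧
      ∀ C : ℝ, {e : ℤ × ℤ | e.1 ∈ A ω ∧ e.2 ∈ A' ω ∧ e.2 ^ 2 ≠ e.1 ^ 3 ∧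
        |(e.2 : ℝ) ^ 2 - (e.1 : ℝ) ^ 3| ≤ C * |(e.1 : ℝ)| ^ (1 / 2 - δ)}.Finite) ∧
    (∀ δ η C : ℝ, 0 ≤ δ → δ < 1 / 2 → 0 ≤ η → 1 / 3 - δ / 6 + η < γ + 3 / 2 * γ' →
      ∃ B : ℝ, ∀ X : ℝ, 1 ≤ X →
        P {ω | ∃ x ∈ A ω, ∃ y ∈ A' ω, y ≠ 0 ∧ X ≤ |(x : ℝ)| ∧ y ^ 2 ≠ x ^ 3 ∧
          |(y : ℝ) ^ 2 - (x : ℝ) ^ 3| ≤ C * |(x : ℝ)| ^ (1 / 2 - δ)} ≤
          ENNReal.ofReal (B * X ^ (-η))) := by
  refine ⟨?_, fun δ η C hδ0 hδ hη h1 => ?_⟩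
  · filter_upwards [Pool.Agent.R909.RSHall.const_all hA hγ',
      Pool.Agent.R909.RSHall.fin_all hA hγ'] with ω h1 h2 δ hδ0 hδ h
    exact ⟨h1 δ hδ0 hδ h, fun C => h2 C δ hδ0 hδ h⟩
  · obtain ⟨B, hB⟩ := (Pool.Agent.R909.RSHall.one hA hγ' C (δ := δ) (η := η) hδ0 hδ hη h1).2
    refine ⟨B, fun X hX => (measure_mono ?_).trans (hB X hX)⟩
    rintro ω ⟨x, hx, y, hy, hy0, hX1, h2, h3⟩
    exact ⟨(x, y), ⟨⟨h2, h3⟩, hy0⟩, hX1, hx, hy⟩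

end Pool.Agent.Results.MP_e734ed_nt.RandomSets
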