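import Pool.Agent.Results.MP_e734ed_nt.WindowsWithoutExceptions
import Pool.Agent.R482.ST.Star

/-!
# The weak form of Hall's conjecture without exceptions in windows around powers, orbits and other sequences

Let `f_n`, `n = 0, 1, 2, …`, be positive functions on `(a, ∞)`, `a ≥ 0`, such that `f_n(t) / t` is nondecreasing, and such
that the sequence `f_n(t)` has exponent of convergence at most `τ` for each `t > a`: for instance `f_n(t) = t ^ (v_n)` for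
exponents `v_n ≥ 1` (`τ = 0`; all powers, the powers `t ^ (3 ^ n)` of Mills, …), the orbits `f_n(t) = g (g (⋯ g (t)))` of any
map `g` with `g(t) > t` and `g(t) / t` nondecreasing (`τ = 0`; for instance of `t² + c`), and `f_n(t) = v_n t`. Let `θ < 1`,
`0 ≤ δ ≤ 1/2` and `C` any constant. For all `α > a` outside a set of Hausdorff dimension at most
`(1/3 - δ/6 + τ) / (1 - θ)` and every `c`, for all but finitely many `n` the inequality `|y² - x³| > C |x| ^ (1/2 - δ)` holds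
for ALL integers `x`, `y` with `y² ≠ x³` and `||x| - f_n(α)| ≤ c f_n(α) ^ θ`. The same is true for `|y|` in place of `|x|` in the
condition, with `2/9 - δ/9` instead of `1/3 - δ/6`.
-/

set_option autoImplicit false

namespace Pool.Agent.Results.MP_e734ed_nt.StarshapedWindows

/-- the functions `f n` are positive on `(a, ∞)`, `a ≥ 0`, and `f n x / x` is nondecreasing there -/
def Starshaped (a : ℝ) (f : ℕ → ℝ → ℝ) : Prop :=
  0 ≤ a ∧ ∀ n : ℕ, ∀ x y : ℝ, a < x → x ≤ y → 0 < f n x ∧ f n x / x ≤ f n y / y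

/-- for each `x > a` the exponent of convergence of the sequence `f n x` is at most `τ` -/
def ExpLe (a : ℝ) (f : ℕ → ℝ → ℝ) (τ : ℝ) : Prop :=
  ∀ x : ℝ, a < x → ∀ t : ℝ, τ < t → Summable (fun n : ℕ => (f n x) ^ (-t))

/-- **Theorem.** Let `f_n` be starshaped functions on `(a, ∞)` of exponent of convergence at most `τ ≥ 0`, `θ < 1`,
`0 ≤ δ ≤ 1/2` and `C` real.
(1) There is a set `E` of Hausdorff dimension at most `(1/3 - δ/6 + τ) / (1 - θ)` such that for each `α > a` outside `E` and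
each `c`, for all but finitely many `n`, `|y² - x³| > C |x| ^ (1/2 - δ)` for all integers `x`, `y` with `y² ≠ x³` and
`||x| - f_n(α)| ≤ c f_n(α) ^ θ`.
(2) There is a set `E` of Hausdorff dimension at most `(2/9 - δ/9 + τ) / (1 - θ)` such that for each `α > a` outside `E` and
each `c`, for all but finitely many `n`, the same inequality holds for all integers `x`, `y` with `y² ≠ x³` and
`||y| - f_n(α)| ≤ c f_n(α) ^ θ`.
(3) The functions `v_n x`, `v_n > 0`, are starshaped on `(0, ∞)`, of exponent `τ` if `v` has exponent of convergence at most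
`τ`; the functions `x ^ (v_n)`, `v_n ≥ 1`, are starshaped on `(1, ∞)`, of exponent `0` if the sums of `exp (-t v_n)` converge
for `t > 0`; and the iterates of a map `g` with `g(x) > x` for `x > a` and `g(x) / x` nondecreasing are starshaped on
`(a, ∞)`, of exponent `0`. -/
theorem result :
    (∀ (a : ℝ) (f : ℕ → ℝ → ℝ) (τ θ δ C : ℝ), Starshaped a f → 0 ≤ τ → ExpLe a f τ → θ < 1 → 0 ≤ δ → δ ≤ 1 / 2 →
      (∃ E : Set ℝ, dimH E ≤ ENNReal.ofReal ((1 / 3 - δ / 6 + τ) / (1 - θ)) ∧ ∀ α : ℝ, a < α → α ∉ E → ∀ c : ℝ,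
        ∃ n₀ : ℕ, ∀ n : ℕ, n₀ ≤ n → ∀ x y : ℤ, y ^ 2 ≠ x ^ 3 → |(|x| : ℝ) - f n α| ≤ c * (f n α) ^ θ →
          C * |(x : ℝ)| ^ (1 / 2 - δ) < |(y : ℝ) ^ 2 - (x : ℝ) ^ 3|) ∧
      (∃ E : Set ℝ, dimH E ≤ ENNReal.ofReal ((2 / 9 - δ / 9 + τ) / (1 - θ)) ∧ ∀ α : ℝ, a < α → α ∉ E → ∀ c : ℝ,
        ∃ n₀ : ℕ, ∀ n : ℕ, n₀ ≤ n → ∀ x y : ℤ, y ^ 2 ≠ x ^ 3 → |(|y| : ℝ) - f n α| ≤ c * (f n α) ^ θ →
          C * |(x : ℝ)| ^ (1 / 2 - δ) < |(y : ℝ) ^ 2 - (x : ℝ) ^ 3|)) ∧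
    (∀ (v : ℕ → ℝ) (τ : ℝ), (∀ n, 0 < v n) → (∀ t : ℝ, τ < t → Summable (fun n : ℕ => (v n) ^ (-t))) →
      Starshaped 0 (fun n x => v n * x) ∧ ExpLe 0 (fun n x => v n * x) τ) ∧
    (∀ v : ℕ → ℝ, (∀ n, 1 ≤ v n) → (∀ t : ℝ, 0 < t → Summable fun n : ℕ => Real.exp (-(t * v n))) →
      Starshaped 1 (fun n x => x ^ (v n)) ∧ ExpLe 1 (fun n x => x ^ (v n)) 0) ∧
    (∀ (a : ℝ) (g : ℝ → ℝ), 0 ≤ a → (∀ x y : ℝ, a < x → x ≤ y → g x / x ≤ g y / y) → (∀ x : ℝ, a < x → x < g x) →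
      Starshaped a (fun n x => g^[n] x) ∧ ExpLe a (fun n x => g^[n] x) 0) := by
  refine ⟨fun a f τ θ δ C hf hτ hE hθ1 h0 h1 => ⟨?_, ?_⟩, Pool.Agent.R482.ST.ex_mul, Pool.Agent.R482.ST.ex_pow,
    Pool.Agent.R482.ST.ex_orbit⟩
  · obtain ⟨E, h2, h3⟩ := Pool.Agent.R482.ST.windows (WindowsWithoutExceptions.Exc C δ)
      (fun e => |((e.1 : ℤ) : ℝ)|) hf hτ hE (s := 1 / 3 - δ / 6) (by linarith) hθ1
      (WindowsWithoutExceptions.count_x C δ h0 h1)
    refine ⟨E, h2, fun α hα hαE c => ?_⟩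
    obtain ⟨n₀, hn⟩ := h3 α hα hαE c
    refine ⟨n₀, fun n hn1 x y hxy hw => ?_⟩
    by_contra hcon
    push Not at hcon
    exact absurd (hn n hn1 (x, y) ⟨hxy, hcon⟩) (not_lt.2 hw)
  · obtain ⟨E, h2, h3⟩ := Pool.Agent.R482.ST.windows (WindowsWithoutExceptions.Exc C δ)
      (fun e => |((e.2 : ℤ) : ℝ)|) hf hτ hE (s := 2 / 9 - δ / 9) (by linarith) hθ1
      (WindowsWithoutExceptions.count_y C δ h0 h1)
    refine ⟨E, h2, fun α hα hαE c => ?_⟩
    obtain ⟨n₀, hn⟩ := h3 α hα hαE c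
    refine ⟨n₀, fun n hn1 x y hxy hw => ?_⟩
    by_contra hcon
    push Not at hcon
    exact absurd (hn n hn1 (x, y) ⟨hxy, hcon⟩) (not_lt.2 hw)

end Pool.Agent.Results.MP_e734ed_nt.StarshapedWindows
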